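import Pool.Agent.Helper75.LQ.Sts

/-! Gaussian averages: package A1, A2, A3. -/

set_option autoImplicit false

open Complex MeasureTheory Filter Topology

namespace Pool.Agent.Helper82.LQ

open Pool.Agent.Helper75.LQ

/-- holomorphic dependence of an integral on a parameter -/
theorem hol_param (G : ℂ → ℝ → ℂ) (h1 : ∀ w, Differentiable ℂ (fun z => G z w))
    (h2 : ∀ z, Continuous (G z))
    (h3 : ∀ R : ℝ, ∃ bd : ℝ → ℝ, Integrable bd ∧ ∀ z, ‖z‖ ≤ R → ∀ w, ‖G z w‖ ≤ bd w) :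
    Differentiable ℂ (fun z => ∫ w : ℝ, G z w) := by
  intro z0
  obtain ⟨bd, hb, hbd⟩ := h3 (‖z0‖ + 2)
  have hmeas : ∀ z : ℂ, AEStronglyMeasurable (G z) volume := fun z => (h2 z).aestronglyMeasurable
  have hder : AEStronglyMeasurable (fun w => deriv (fun z => G z w) z0) volume := by
    have hl : ∀ w : ℝ, Tendsto (fun n : ℕ => ((n : ℂ) + 1) * (G (z0 + 1 / ((n : ℂ) + 1)) w - G z0 w)) atTop
        (𝓝 (deriv (fun z => G z w) z0)) := by
      intro w
      have hd : HasDerivAt (fun z => G z w) (deriv (fun z => G z w) z0) z0 := (h1 w z0).hasDerivAt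
      have hs := hd.tendsto_slope_zero
      have ht : Tendsto (fun n : ℕ => (1 : ℂ) / ((n : ℂ) + 1)) atTop (𝓝[≠] 0) := by
        rw [tendsto_nhdsWithin_iff]
        constructor
        · exact tendsto_one_div_add_atTop_nhds_zero_nat
        · filter_upwards with n
          have : (n : ℂ) + 1 ≠ 0 := by exact_mod_cast Nat.succ_ne_zero n
          simp only [Set.mem_compl_iff, Set.mem_singleton_iff]
          exact one_div_ne_zero this
      have h := hs.comp ht
      refine h.congr fun n => ?_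
      simp only [Function.comp]
      rw [smul_eq_mul, one_div, inv_inv]
    refine aestronglyMeasurable_of_tendsto_ae atTop (fun n => ?_) (Eventually.of_forall hl)
    exact ((hmeas _).sub (hmeas _)).const_mul _
  have key := hasDerivAt_integral_of_dominated_loc_of_deriv_le (μ := (volume : Measure ℝ)) (𝕜 := ℂ)
    (F := G) (F' := fun z w => deriv (fun z => G z w) z) (x₀ := z0) (s := Metric.ball z0 1) (bound := bd)
    (Metric.ball_mem_nhds z0 one_pos) (Eventually.of_forall hmeas)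
    (Integrable.mono' hb (hmeas z0) (Eventually.of_forall fun w => hbd z0 (by linarith) w))
    hder ?_ hb ?_
  · exact key.2.differentiableAt
  · refine Eventually.of_forall fun w z hz => ?_
    have hz' : ‖z - z0‖ < 1 := by simpa [dist_eq_norm] using hz
    have hzn : ‖z‖ ≤ ‖z0‖ + 1 := by
      calc ‖z‖ = ‖z0 + (z - z0)‖ := by ring_nf
        _ ≤ ‖z0‖ + ‖z - z0‖ := norm_add_le _ _
        _ ≤ _ := by linarith
    have := Complex.norm_deriv_le_of_forall_mem_sphere_norm_le (c := z) (R := 1) (C := bd w)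
      (f := fun z => G z w) one_pos (h1 w).diffContOnCl (fun u hu => ?_)
    · simpa using this
    · have hu' : ‖u - z‖ = 1 := by simpa [dist_eq_norm] using hu
      refine hbd u ?_ w
      calc ‖u‖ = ‖z + (u - z)‖ := by ring_nf
        _ ≤ ‖z‖ + ‖u - z‖ := norm_add_le _ _
        _ ≤ _ := by linarith
  · exact Eventually.of_forall fun w z _ => (h1 w z).hasDerivAt

theorem norm_ga {v : ℝ} (w : ℂ) :
    ‖ga v w‖ = Real.exp (-(w.re ^ 2 - w.im ^ 2) / (2 * v)) / Real.sqrt (2 * Real.pi * v) := by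
  unfold ga
  rw [norm_div, Complex.norm_exp, Complex.norm_real, Real.norm_eq_abs, abs_of_nonneg (Real.sqrt_nonneg _)]
  congr 2
  have : -(w ^ 2) / (2 * (v : ℂ)) = (-(w ^ 2)) / ((2 * v : ℝ) : ℂ) := by push_cast; ring
  rw [this, Complex.div_ofReal_re]
  simp [sq]

theorem differentiable_ga (v : ℝ) : Differentiable ℂ (ga v) := by
  unfold ga
  fun_prop

theorem continuous_ga (v : ℝ) : Continuous (ga v) := (differentiable_ga v).continuous

/-- the basic bound -/
theorem bnd {g : ℂ → ℂ} {v M a : ℝ} (hv : 0 < v) (hM : 0 ≤ M) (ha : 0 ≤ a) (hav : 32 * a * v ≤ 1)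
    (hg : ∀ z : ℂ, ‖g z‖ ≤ M * Real.exp (a * ‖z‖ ^ 2)) (z ζ : ℂ) (w : ℝ) :
    ‖g (z - w) * ga v (w + ζ)‖ ≤ M * Real.exp (2 * a * ‖z‖ ^ 2) * Real.exp (‖ζ‖ ^ 2 / (2 * v)) /
      Real.sqrt (2 * Real.pi * v) * Real.exp (-(1 / (8 * v)) * w ^ 2) := by
  have hs : 0 < Real.sqrt (2 * Real.pi * v) := Real.sqrt_pos.2 (by positivity)
  rw [norm_mul, norm_ga]
  have h1 : ‖g (z - w)‖ ≤ M * Real.exp (2 * a * ‖z‖ ^ 2 + 2 * a * w ^ 2) := by
    refine (hg _).trans (mul_le_mul_of_nonneg_left (Real.exp_le_exp.2 ?_) hM)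
    have h2 : ‖z - w‖ ^ 2 ≤ 2 * ‖z‖ ^ 2 + 2 * w ^ 2 := by
      have h3 : ‖z - w‖ ≤ ‖z‖ + |w| := by
        refine (norm_sub_le _ _).trans ?_
        rw [Complex.norm_real, Real.norm_eq_abs]
      have h4 : ‖z - w‖ ^ 2 ≤ (‖z‖ + |w|) ^ 2 := pow_le_pow_left₀ (norm_nonneg _) h3 2
      have h5 : |w| ^ 2 = w ^ 2 := sq_abs w
      nlinarith [sq_nonneg (‖z‖ - |w|)]
    nlinarith
  have h2 : Real.exp (-(((w : ℂ) + ζ).re ^ 2 - ((w : ℂ) + ζ).im ^ 2) / (2 * v)) ≤
      Real.exp (‖ζ‖ ^ 2 / (2 * v) - w ^ 2 / (4 * v)) := by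
    refine Real.exp_le_exp.2 ?_
    have h3 : ‖ζ‖ ^ 2 = ζ.re ^ 2 + ζ.im ^ 2 := by
      rw [← Complex.normSq_eq_norm_sq, Complex.normSq_apply]; ring
    have h4 : ‖ζ‖ ^ 2 / (2 * v) - w ^ 2 / (4 * v) = (‖ζ‖ ^ 2 - w ^ 2 / 2) / (2 * v) := by
      field_simp
      ring
    rw [h4]
    refine div_le_div_of_nonneg_right ?_ (by positivity)
    rw [h3]
    simp only [Complex.add_re, Complex.ofReal_re, Complex.add_im, Complex.ofReal_im, zero_add]
    nlinarith [sq_nonneg (w + 2 * ζ.re)]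
  have h5 : 2 * a * w ^ 2 ≤ w ^ 2 / (16 * v) := by
    rw [le_div_iff₀ (by positivity)]
    nlinarith [sq_nonneg w, mul_le_mul_of_nonneg_left hav (sq_nonneg w)]
  calc ‖g (z - w)‖ * (Real.exp (-(((w : ℂ) + ζ).re ^ 2 - ((w : ℂ) + ζ).im ^ 2) / (2 * v)) /
        Real.sqrt (2 * Real.pi * v))
      ≤ (M * Real.exp (2 * a * ‖z‖ ^ 2 + 2 * a * w ^ 2)) *
        (Real.exp (‖ζ‖ ^ 2 / (2 * v) - w ^ 2 / (4 * v)) / Real.sqrt (2 * Real.pi * v)) := by
        refine mul_le_mul h1 (div_le_div_of_nonneg_right h2 hs.le) (by positivity) (by positivity)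
    _ = M * Real.exp ((2 * a * ‖z‖ ^ 2 + 2 * a * w ^ 2) + (‖ζ‖ ^ 2 / (2 * v) - w ^ 2 / (4 * v))) /
        Real.sqrt (2 * Real.pi * v) := by
        rw [Real.exp_add (2 * a * ‖z‖ ^ 2 + 2 * a * w ^ 2)]; ring
    _ ≤ M * Real.exp (2 * a * ‖z‖ ^ 2 + ‖ζ‖ ^ 2 / (2 * v) + -(1 / (8 * v)) * w ^ 2) /
        Real.sqrt (2 * Real.pi * v) := by
        refine div_le_div_of_nonneg_right (mul_le_mul_of_nonneg_left (Real.exp_le_exp.2 ?_) hM) hs.le
        have h6 : -(1 / (8 * v)) * w ^ 2 = -(w ^ 2 / (8 * v)) := by ring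
        have h7 : w ^ 2 / (4 * v) = 2 * (w ^ 2 / (8 * v)) := by field_simp; ring
        have h8 : w ^ 2 / (16 * v) = (1 / 2) * (w ^ 2 / (8 * v)) := by field_simp; ring
        have h9 : 0 ≤ w ^ 2 / (8 * v) := by positivity
        rw [h6, h7]
        rw [h8] at h5
        linarith
    _ = _ := by rw [Real.exp_add, Real.exp_add]; ring

theorem int_basic {g : ℂ → ℂ} {v : ℝ} (hd : Differentiable ℂ g) (hv : 0 < v) (hg : Gr g v) (z ζ : ℂ) :
    Integrable (fun w : ℝ => g (z - w) * ga v (w + ζ)) := by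
  obtain ⟨M, a, hM, ha, hav, hg⟩ := hg
  have hc : Continuous (fun w : ℝ => g (z - w) * ga v (w + ζ)) :=
    (hd.continuous.comp (continuous_const.sub Complex.continuous_ofReal)).mul
      ((continuous_ga v).comp (Complex.continuous_ofReal.add continuous_const))
  refine Integrable.mono' ?_ hc.aestronglyMeasurable (Eventually.of_forall fun w => bnd hv hM ha hav hg z ζ w)
  exact (integrable_exp_neg_mul_sq (by positivity)).const_mul _

theorem st_a1 : St_A1 := by
  intro g v hd hv hg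
  obtain ⟨M, a, hM, ha, hav, hg⟩ := hg
  unfold F
  refine hol_param (fun z w => g (z - w) * ga v w) ?_ ?_ ?_
  · intro w
    exact (hd.comp (differentiable_id.sub_const _)).mul_const _
  · intro z
    exact (hd.continuous.comp (continuous_const.sub Complex.continuous_ofReal)).mul
      ((continuous_ga v).comp Complex.continuous_ofReal)
  · intro R
    refine ⟨fun w => M * Real.exp (2 * a * R ^ 2) * Real.exp (0 ^ 2 / (2 * v)) /
      Real.sqrt (2 * Real.pi * v) * Real.exp (-(1 / (8 * v)) * w ^ 2),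
      (integrable_exp_neg_mul_sq (by positivity)).const_mul _, fun z hz w => ?_⟩
    have h := bnd hv hM ha hav hg z 0 w
    rw [add_zero, norm_zero] at h
    refine h.trans ?_
    have hR : ‖z‖ ^ 2 ≤ R ^ 2 := pow_le_pow_left₀ (norm_nonneg _) hz 2
    beta_reduce
    gcongr

/-- translation by a complex number -/
theorem shift {g : ℂ → ℂ} {v : ℝ} (hd : Differentiable ℂ g) (hv : 0 < v) (hg : Gr g v) (z ζ : ℂ) :
    F g v (z + ζ) = ∫ w : ℝ, g (z - w) * ga v (w + ζ) := by
  have h1 : Differentiable ℂ (fun ζ : ℂ => F g v (z + ζ)) :=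
    (st_a1 g v hd hv hg).comp (differentiable_id.const_add z)
  have h2 : Differentiable ℂ (fun ζ : ℂ => ∫ w : ℝ, g (z - w) * ga v (w + ζ)) := by
    obtain ⟨M, a, hM, ha, hav, hg⟩ := hg
    refine hol_param (fun ζ w => g (z - w) * ga v (w + ζ)) ?_ ?_ ?_
    · intro w
      exact ((differentiable_ga v).comp (differentiable_id.const_add _)).const_mul _
    · intro ζ
      exact (hd.continuous.comp (continuous_const.sub Complex.continuous_ofReal)).mul
        ((continuous_ga v).comp (Complex.continuous_ofReal.add continuous_const))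
    · intro R
      refine ⟨fun w => M * Real.exp (2 * a * ‖z‖ ^ 2) * Real.exp (R ^ 2 / (2 * v)) /
        Real.sqrt (2 * Real.pi * v) * Real.exp (-(1 / (8 * v)) * w ^ 2),
        (integrable_exp_neg_mul_sq (by positivity)).const_mul _, fun ζ hζ w => ?_⟩
      refine (bnd hv hM ha hav hg z ζ w).trans ?_
      have hR : ‖ζ‖ ^ 2 ≤ R ^ 2 := pow_le_pow_left₀ (norm_nonneg _) hζ 2
      beta_reduce
      gcongr
  have hreal : ∀ x : ℝ, F g v (z + x) = ∫ w : ℝ, g (z - w) * ga v (w + x) := by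
    intro x
    unfold F
    rw [← integral_add_right_eq_self (fun w : ℝ => g (z + x - w) * ga v w) x]
    congr 1
    ext w
    push_cast
    congr 2
    ring
  have ha1 : AnalyticOnNhd ℂ (fun ζ : ℂ => F g v (z + ζ)) Set.univ := fun x _ => h1.analyticAt x
  have ha2 : AnalyticOnNhd ℂ (fun ζ : ℂ => ∫ w : ℝ, g (z - w) * ga v (w + ζ)) Set.univ :=
    fun x _ => h2.analyticAt x
  have hfr : ∃ᶠ ζ in 𝓝[≠] (0 : ℂ), F g v (z + ζ) = ∫ w : ℝ, g (z - w) * ga v (w + ζ) := by
    have ht : Tendsto (fun n : ℕ => ((1 / ((n : ℝ) + 1) : ℝ) : ℂ)) atTop (𝓝[≠] 0) := by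
      rw [tendsto_nhdsWithin_iff]
      constructor
      · have := tendsto_one_div_add_atTop_nhds_zero_nat (𝕜 := ℝ)
        have h := (Complex.continuous_ofReal.tendsto 0).comp this
        rw [Complex.ofReal_zero] at h
        exact h
      · filter_upwards with n
        have : (n : ℝ) + 1 ≠ 0 := by positivity
        simp only [Set.mem_compl_iff, Set.mem_singleton_iff, Complex.ofReal_eq_zero]
        exact one_div_ne_zero this
    refine ht.frequently ?_
    exact (Eventually.of_forall fun n => hreal _).frequently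
  exact congrFun (ha1.eq_of_frequently_eq ha2 hfr) ζ

theorem st_a2 : St_A2 := fun _ _ hd hv hg z σ =>
  ⟨int_basic hd hv hg z (I * σ), shift hd hv hg z (I * σ)⟩

end Pool.Agent.Helper82.LQ
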