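import Pool.Agent.Helper82.LQ.A3

/-! Packages D4 and D3. -/

set_option autoImplicit false

open Complex MeasureTheory Filter Topology

namespace Pool.Agent.Helper82.LQ

open Pool.Agent.Helper75.LQ

/-- the real Gaussian density -/
noncomputable def wr (v a : ℝ) : ℝ := Real.exp (-(a ^ 2) / (2 * v)) / Real.sqrt (2 * Real.pi * v)

theorem ga_real (v a : ℝ) : ga v (a : ℂ) = ((wr v a : ℝ) : ℂ) := by
  unfold ga wr
  push_cast
  rfl

theorem wr_nonneg (v a : ℝ) : 0 ≤ wr v a := by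
  unfold wr
  positivity

theorem wr_even (v a : ℝ) : wr v (-a) = wr v a := by
  unfold wr
  rw [neg_sq]

theorem wr_eq (v : ℝ) : wr v = fun a : ℝ => (1 / Real.sqrt (2 * Real.pi * v)) *
    Real.exp (-(1 / (2 * v)) * a ^ 2) := by
  funext a
  unfold wr
  rw [show -(a ^ 2) / (2 * v) = -(1 / (2 * v)) * a ^ 2 by ring]
  ring

theorem wr_int {v : ℝ} (hv : 0 < v) : Integrable (wr v) := by
  rw [wr_eq v]
  exact (integrable_exp_neg_mul_sq (by positivity)).const_mul _

theorem wr_total {v : ℝ} (hv : 0 < v) : ∫ a, wr v a = 1 := by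
  rw [wr_eq v, integral_const_mul, integral_gaussian]
  have h : Real.pi / (1 / (2 * v)) = 2 * Real.pi * v := by field_simp
  rw [h]
  have : 0 < Real.sqrt (2 * Real.pi * v) := Real.sqrt_pos.2 (by positivity)
  field_simp

theorem meas_S : MeasurableSet {a : ℝ | 1 < |a|} := measurableSet_lt measurable_const measurable_norm

theorem wr_tail {v : ℝ} (hv : 0 < v) (hv' : v ≤ 1 / 10) : ∫ a in {a : ℝ | 1 < |a|}, wr v a ≤ 1 / 2 := by
  have h1 : ∫ a in {a : ℝ | 1 < |a|}, wr v a ≤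
      ∫ a in {a : ℝ | 1 < |a|}, (Real.sqrt 2 * Real.exp (-(1 / (4 * v)))) * wr (2 * v) a := by
    refine setIntegral_mono_on (wr_int hv).integrableOn ((wr_int (by positivity)).const_mul _).integrableOn
      meas_S fun a ha => ?_
    have ha' : 1 < |a| := ha
    have ha2 : 1 ≤ a ^ 2 := by
      have := sq_abs a
      nlinarith
    unfold wr
    have hs : 0 < Real.sqrt (2 * Real.pi * v) := Real.sqrt_pos.2 (by positivity)
    have hs2 : Real.sqrt (2 * Real.pi * (2 * v)) = Real.sqrt 2 * Real.sqrt (2 * Real.pi * v) := by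
      rw [← Real.sqrt_mul (by norm_num)]
      congr 1
      ring
    rw [hs2]
    have h2 : 0 < Real.sqrt 2 := Real.sqrt_pos.2 (by norm_num)
    have e : Real.sqrt 2 * Real.exp (-(1 / (4 * v))) * (Real.exp (-(a ^ 2) / (2 * (2 * v))) /
        (Real.sqrt 2 * Real.sqrt (2 * Real.pi * v))) =
        (Real.exp (-(1 / (4 * v))) * Real.exp (-(a ^ 2) / (2 * (2 * v)))) / Real.sqrt (2 * Real.pi * v) := by
      field_simp
    rw [e, ← Real.exp_add]
    refine div_le_div_of_nonneg_right (Real.exp_le_exp.2 ?_) hs.le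
    have e2 : -(1 / (4 * v)) + -(a ^ 2) / (2 * (2 * v)) = -((1 + a ^ 2) / (4 * v)) := by
      field_simp
      ring
    have e3 : -(a ^ 2) / (2 * v) = -((2 * a ^ 2) / (4 * v)) := by
      field_simp
      ring
    rw [e2, e3]
    refine neg_le_neg (div_le_div_of_nonneg_right (by linarith) (by positivity))
  have h2 : ∫ a in {a : ℝ | 1 < |a|}, (Real.sqrt 2 * Real.exp (-(1 / (4 * v)))) * wr (2 * v) a ≤
      Real.sqrt 2 * Real.exp (-(1 / (4 * v))) := by
    rw [integral_const_mul]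
    have h3 : ∫ a in {a : ℝ | 1 < |a|}, wr (2 * v) a ≤ 1 := by
      rw [← wr_total (show 0 < 2 * v by positivity)]
      exact setIntegral_le_integral (wr_int (by positivity)) (Eventually.of_forall fun a => wr_nonneg _ _)
    calc _ ≤ Real.sqrt 2 * Real.exp (-(1 / (4 * v))) * 1 := mul_le_mul_of_nonneg_left h3 (by positivity)
      _ = _ := mul_one _
  have h4 : Real.sqrt 2 ≤ 3 / 2 := by
    rw [Real.sqrt_le_left (by norm_num)]
    norm_num
  have h5 : Real.exp (-(1 / (4 * v))) ≤ 1 / 3 := by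
    have h6 : (2 : ℝ) ≤ 1 / (4 * v) := by
      rw [le_div_iff₀ (by positivity)]
      linarith
    have h7 : (3 : ℝ) ≤ Real.exp (1 / (4 * v)) := by
      have := Real.add_one_le_exp (1 / (4 * v))
      linarith
    rw [Real.exp_neg, inv_eq_one_div]
    exact one_div_le_one_div_of_le (by norm_num) h7
  have h8 : Real.sqrt 2 * Real.exp (-(1 / (4 * v))) ≤ 3 / 2 * (1 / 3) :=
    mul_le_mul h4 h5 (Real.exp_pos _).le (by norm_num)
  linarith

theorem wr_body {v : ℝ} (hv : 0 < v) (hv' : v ≤ 1 / 10) : 1 / 2 ≤ ∫ a in {a : ℝ | 1 < |a|}ᶜ, wr v a := by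
  have h := integral_add_compl meas_S (wr_int hv)
  rw [wr_total hv] at h
  have := wr_tail hv hv'
  linarith

theorem wr_body_le {v : ℝ} (hv : 0 < v) : ∫ a in {a : ℝ | 1 < |a|}ᶜ, wr v a ≤ 1 := by
  rw [← wr_total hv]
  exact setIntegral_le_integral (wr_int hv) (Eventually.of_forall fun a => wr_nonneg _ _)

section core

variable {g : ℂ → ℂ} (hre : ∀ z, g ((starRingEnd ℂ) z) = (starRingEnd ℂ) (g z))

include hre

theorem nn_conj (v s y : ℝ) : (starRingEnd ℂ) (nn g v s y) = nn g v s y := by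
  unfold nn
  rw [← integral_conj, ← integral_neg_eq_self (fun d : ℝ => S g s (y - I * d) * ga v d)]
  congr 1
  ext d
  rw [map_mul, ga_real, ga_real, Complex.conj_ofReal, wr_even]
  congr 1
  unfold S
  rw [map_mul, ← hre, ← hre, mul_comm]
  have e1 : (starRingEnd ℂ) ((s : ℂ) - I * ((y : ℂ) - I * (d : ℂ))) =
      (s : ℂ) + I * ((y : ℂ) - I * ((-d : ℝ) : ℂ)) := by
    simp only [map_sub, map_mul, Complex.conj_ofReal, Complex.conj_I]
    push_cast
    ring
  have e2 : (starRingEnd ℂ) ((s : ℂ) + I * ((y : ℂ) - I * (d : ℂ))) =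
      (s : ℂ) - I * ((y : ℂ) - I * ((-d : ℝ) : ℂ)) := by
    simp only [map_sub, map_add, map_mul, Complex.conj_ofReal, Complex.conj_I]
    push_cast
    ring
  rw [e1, e2]

theorem nn_real (v s y : ℝ) : nn g v s y = (((nn g v s y).re : ℝ) : ℂ) :=
  (Complex.conj_eq_iff_re.1 (nn_conj hre v s y)).symm

theorem F_conj (v : ℝ) (z : ℂ) : F g v ((starRingEnd ℂ) z) = (starRingEnd ℂ) (F g v z) := by
  unfold F
  rw [← integral_conj]
  congr 1
  ext w
  rw [map_mul, ga_real, Complex.conj_ofReal, ← hre, map_sub, Complex.conj_ofReal]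

variable {v : ℝ} (hd : Differentiable ℂ g) (hv : 0 < v) (hg : Gr g v)

include hd hv hg

theorem fsq (s y : ℝ) : Integrable (fun a : ℝ => (nn g (v / 2) (s - a) y).re * wr (v / 2) a) ∧
    ‖F g v (s + I * y)‖ ^ 2 = ∫ a : ℝ, (nn g (v / 2) (s - a) y).re * wr (v / 2) a := by
  obtain ⟨h1, h2⟩ := st_a3 g v hd hv hg s 0 y 0
  have e : ∀ a : ℝ, nn g (v / 2) (s - a) y * ga (v / 2) (a + ((0 : ℝ) : ℂ) + I * ((0 : ℝ) : ℂ)) =
      (((nn g (v / 2) (s - a) y).re * wr (v / 2) a : ℝ) : ℂ) := by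
    intro a
    rw [Complex.ofReal_zero, mul_zero, add_zero, add_zero, ga_real, nn_real hre (v / 2) (s - a) y]
    push_cast
    rw [Complex.ofReal_re]
  simp_rw [e] at h1 h2
  have h3 : Integrable (fun a : ℝ => (nn g (v / 2) (s - a) y).re * wr (v / 2) a) := by
    have := h1.re
    simpa using this
  refine ⟨h3, ?_⟩
  rw [integral_complex_ofReal] at h2
  have e1 : (s : ℂ) + ((0 : ℝ) : ℂ) + I * (((0 : ℝ) : ℂ) + y) = s + I * y := by simp
  have e2 : (s : ℂ) + ((0 : ℝ) : ℂ) + I * (((0 : ℝ) : ℂ) - y) = (starRingEnd ℂ) (s + I * y) := by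
    simp only [map_add, map_mul, Complex.conj_ofReal, Complex.conj_I]
    push_cast
    ring
  rw [e1, e2, F_conj hre, Complex.mul_conj, Complex.normSq_eq_norm_sq] at h2
  exact_mod_cast h2

omit hre hd hg in
theorem norm_ga_le {a b σ : ℝ} (ha : |a| ≤ 1) :
    ‖ga (v / 2) (a + b + I * σ)‖ ≤ Real.exp ((2 * |b| + σ ^ 2) / v) * wr (v / 2) a := by
  rw [norm_ga]
  have e1 : ((a : ℂ) + b + I * σ).re = a + b := by simp
  have e2 : ((a : ℂ) + b + I * σ).im = σ := by simp
  rw [e1, e2]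
  unfold wr
  have e4 : Real.exp ((2 * |b| + σ ^ 2) / v) * (Real.exp (-(a ^ 2) / (2 * (v / 2))) /
      Real.sqrt (2 * Real.pi * (v / 2))) = Real.exp ((2 * |b| + σ ^ 2) / v + -(a ^ 2) / (2 * (v / 2))) /
      Real.sqrt (2 * Real.pi * (v / 2)) := by
    rw [Real.exp_add]
    ring
  rw [e4]
  refine div_le_div_of_nonneg_right (Real.exp_le_exp.2 ?_) (Real.sqrt_nonneg _)
  have e3 : 2 * (v / 2) = v := by ring
  rw [e3, ← add_div]
  refine div_le_div_of_nonneg_right ?_ hv.le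
  have h1 : -(2 * (a * b)) ≤ 2 * |b| := by
    have h2 : |a * b| ≤ |b| := by
      rw [abs_mul]
      exact mul_le_of_le_one_left (abs_nonneg _) ha
    have := neg_abs_le (a * b)
    linarith
  nlinarith [sq_nonneg b]

theorem d4_core {s y b σ E : ℝ} (hE : 0 ≤ E)
    (hN : ∀ a : ℝ, |a| ≤ 1 → -E ≤ (nn g (v / 2) (s - a) y).re)
    (hC : ∫ a in {a : ℝ | 1 < |a|}, ‖nn g (v / 2) (s - a) y * ga (v / 2) (a + b + I * σ)‖ ≤ 1)
    (hC0 : ∫ a in {a : ℝ | 1 < |a|}, ‖nn g (v / 2) (s - a) y * ga (v / 2) (a + ((0 : ℝ) : ℂ) +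
      I * ((0 : ℝ) : ℂ))‖ ≤ 1) :
    ‖F g v (s + b + I * (σ + y))‖ * ‖F g v (s + b + I * (σ - y))‖ ≤
      1 + Real.exp ((2 * |b| + σ ^ 2) / v) * (‖F g v (s + I * y)‖ ^ 2 + 1 + 2 * E) := by
  obtain ⟨h1, h2⟩ := st_a3 g v hd hv hg s b y σ
  obtain ⟨h3, h4⟩ := fsq hre hd hv hg s y
  have hv2 : 0 < v / 2 := by positivity
  set P : ℝ := Real.exp ((2 * |b| + σ ^ 2) / v) with hP
  have hPpos : 0 < P := Real.exp_pos _
  have hint : Integrable (fun a : ℝ => P * ((nn g (v / 2) (s - a) y).re * wr (v / 2) a +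
      2 * E * wr (v / 2) a)) := (h3.add ((wr_int hv2).const_mul _)).const_mul _
  have e0 : ∀ a : ℝ, ‖nn g (v / 2) (s - a) y * ga (v / 2) (a + ((0 : ℝ) : ℂ) + I * ((0 : ℝ) : ℂ))‖ =
      |(nn g (v / 2) (s - a) y).re * wr (v / 2) a| := by
    intro a
    rw [Complex.ofReal_zero, mul_zero, add_zero, add_zero, ga_real, nn_real hre (v / 2) (s - a) y,
      Complex.ofReal_re, ← Complex.ofReal_mul, Complex.norm_real, Real.norm_eq_abs]
  simp_rw [e0] at hC0
  have hb : ∫ a in {a : ℝ | 1 < |a|}ᶜ, ‖nn g (v / 2) (s - a) y * ga (v / 2) (a + b + I * σ)‖ ≤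
      P * (‖F g v (s + I * y)‖ ^ 2 + 1 + 2 * E) := by
    calc ∫ a in {a : ℝ | 1 < |a|}ᶜ, ‖nn g (v / 2) (s - a) y * ga (v / 2) (a + b + I * σ)‖
        ≤ ∫ a in {a : ℝ | 1 < |a|}ᶜ, P * ((nn g (v / 2) (s - a) y).re * wr (v / 2) a +
            2 * E * wr (v / 2) a) := by
          refine setIntegral_mono_on h1.norm.integrableOn hint.integrableOn meas_S.compl fun a ha => ?_
          have ha' : |a| ≤ 1 := not_lt.1 ha
          rw [norm_mul]
          have hn : ‖nn g (v / 2) (s - a) y‖ ≤ (nn g (v / 2) (s - a) y).re + 2 * E := by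
            rw [nn_real hre (v / 2) (s - a) y, Complex.norm_real, Real.norm_eq_abs, Complex.ofReal_re, abs_le]
            have := hN a ha'
            constructor <;> linarith
          have hg2 := norm_ga_le hv (b := b) (σ := σ) ha'
          have hn0 : 0 ≤ (nn g (v / 2) (s - a) y).re + 2 * E := (norm_nonneg _).trans hn
          calc _ ≤ ((nn g (v / 2) (s - a) y).re + 2 * E) * (P * wr (v / 2) a) :=
                mul_le_mul hn hg2 (norm_nonneg _) hn0
            _ = _ := by ring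
      _ = P * (∫ a in {a : ℝ | 1 < |a|}ᶜ, (nn g (v / 2) (s - a) y).re * wr (v / 2) a) +
          P * (2 * E * ∫ a in {a : ℝ | 1 < |a|}ᶜ, wr (v / 2) a) := by
          rw [integral_const_mul, integral_add h3.integrableOn ((wr_int hv2).const_mul _).integrableOn,
            integral_const_mul]
          ring
      _ ≤ P * (‖F g v (s + I * y)‖ ^ 2 + 1) + P * (2 * E * 1) := by
          have h5 := integral_add_compl meas_S h3
          rw [← h4] at h5
          have h6 : -1 ≤ ∫ a in {a : ℝ | 1 < |a|}, (nn g (v / 2) (s - a) y).re * wr (v / 2) a := by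
            have h7 : -(∫ a in {a : ℝ | 1 < |a|}, (nn g (v / 2) (s - a) y).re * wr (v / 2) a) ≤
                ∫ a in {a : ℝ | 1 < |a|}, |(nn g (v / 2) (s - a) y).re * wr (v / 2) a| := by
              rw [← integral_neg]
              exact setIntegral_mono_on h3.neg.integrableOn h3.abs.integrableOn meas_S
                fun a _ => neg_le_abs _
            linarith
          have h8 : ∫ a in {a : ℝ | 1 < |a|}ᶜ, (nn g (v / 2) (s - a) y).re * wr (v / 2) a ≤
              ‖F g v (s + I * y)‖ ^ 2 + 1 := by linarith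
          have h9 := wr_body_le hv2
          gcongr
      _ = _ := by ring
  rw [← norm_mul, h2]
  refine (norm_integral_le_integral_norm _).trans ?_
  rw [← integral_add_compl meas_S h1.norm]
  linarith

theorem d3_core {s y m : ℝ} (hv' : v ≤ 1 / 10) (hm : 0 ≤ m)
    (hN : ∀ a : ℝ, |a| ≤ 1 → m ≤ (nn g (v / 2) (s - a) y).re)
    (hC0 : ∫ a in {a : ℝ | 1 < |a|}, ‖nn g (v / 2) (s - a) y * ga (v / 2) (a + ((0 : ℝ) : ℂ) +
      I * ((0 : ℝ) : ℂ))‖ ≤ 1) : m / 2 - 1 ≤ ‖F g v (s + I * y)‖ ^ 2 := by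
  obtain ⟨h3, h4⟩ := fsq hre hd hv hg s y
  have hv2 : 0 < v / 2 := by positivity
  have e0 : ∀ a : ℝ, ‖nn g (v / 2) (s - a) y * ga (v / 2) (a + ((0 : ℝ) : ℂ) + I * ((0 : ℝ) : ℂ))‖ =
      |(nn g (v / 2) (s - a) y).re * wr (v / 2) a| := by
    intro a
    rw [Complex.ofReal_zero, mul_zero, add_zero, add_zero, ga_real, nn_real hre (v / 2) (s - a) y,
      Complex.ofReal_re, ← Complex.ofReal_mul, Complex.norm_real, Real.norm_eq_abs]
  simp_rw [e0] at hC0
  rw [h4, ← integral_add_compl meas_S h3]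
  have h6 : -1 ≤ ∫ a in {a : ℝ | 1 < |a|}, (nn g (v / 2) (s - a) y).re * wr (v / 2) a := by
    have h7 : -(∫ a in {a : ℝ | 1 < |a|}, (nn g (v / 2) (s - a) y).re * wr (v / 2) a) ≤
        ∫ a in {a : ℝ | 1 < |a|}, |(nn g (v / 2) (s - a) y).re * wr (v / 2) a| := by
      rw [← integral_neg]
      exact setIntegral_mono_on h3.neg.integrableOn h3.abs.integrableOn meas_S
        fun a _ => neg_le_abs _
    linarith
  have h8 : m * ∫ a in {a : ℝ | 1 < |a|}ᶜ, wr (v / 2) a ≤
      ∫ a in {a : ℝ | 1 < |a|}ᶜ, (nn g (v / 2) (s - a) y).re * wr (v / 2) a := by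
    rw [← integral_const_mul]
    refine setIntegral_mono_on ((wr_int hv2).const_mul _).integrableOn h3.integrableOn meas_S.compl
      fun a ha => ?_
    exact mul_le_mul_of_nonneg_right (hN a (not_lt.1 ha)) (wr_nonneg _ _)
  have h9 := wr_body hv2 (by linarith)
  have h10 : m * (1 / 2) ≤ m * ∫ a in {a : ℝ | 1 < |a|}ᶜ, wr (v / 2) a := mul_le_mul_of_nonneg_left h9 hm
  linarith

end core

theorem gr_ev {A C : ℝ} {g : ℕ → ℂ → ℂ} {L : ℕ → ℝ} (h : TS A C g L) {c : ℝ} (hc : 32 ≤ c) :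
    ∀ᶠ j in atTop, 1 ≤ L j ∧ 0 < vv c L j ∧ vv c L j ≤ 1 / 10 ∧ Gr (g j) (vv c L j) := by
  obtain ⟨B, hB⟩ := h.glob 1 one_pos
  filter_upwards [hB, h.lim.eventually_ge_atTop 1] with j hj hL
  have hc0 : 0 < c := by linarith
  have hL0 : 0 < L j := by linarith
  have hpos : 0 < vv c L j := by unfold vv; positivity
  refine ⟨hL, hpos, ?_, ?_⟩
  · unfold vv
    exact one_div_le_one_div_of_le (by norm_num) (by nlinarith)
  · refine ⟨Real.exp (L j * B), L j, (Real.exp_pos _).le, hL0.le, ?_, fun z => ?_⟩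
    · unfold vv
      have e : 32 * L j * (1 / (c * L j)) = 32 / c := by
        field_simp
      rw [e, div_le_one hc0]
      exact hc
    · refine (hj z).trans (le_of_eq ?_)
      rw [← Real.exp_add]
      congr 1
      ring

theorem st_d4 (hC1 : St_C1) (hC3 : St_C3) : St_D4 := by
  intro A C g L h
  obtain ⟨c1, hc1⟩ := hC1 A C g L h
  obtain ⟨c3, hc3⟩ := hC3 A C g L h
  refine ⟨max (max c1 c3) 32, fun c hc η hη R => ?_⟩
  have hcc1 : c1 ≤ c := (le_max_left _ _).trans ((le_max_left _ _).trans hc)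
  have hcc3 : c3 ≤ c := (le_max_right _ _).trans ((le_max_left _ _).trans hc)
  have hc32 : 32 ≤ c := (le_max_right _ _).trans hc
  have hc0 : 0 < c := by linarith
  have hbig : ∀ᶠ j in atTop, 2 * Real.log 4 / η ≤ L j := h.lim.eventually_ge_atTop _
  filter_upwards [hc1 c hcc1 (η / 2) (by positivity) (R + 1), hc3 c hcc3 (|R| + 1), gr_ev h hc32, hbig]
    with j h1 h3 hj hLb s y b σ hs hy1 hy2 hb hσ
  obtain ⟨hL, hv, hv', hg⟩ := hj
  have hR : R ≤ |R| := le_abs_self R
  have hA := h.A0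
  have hyab : |y| ≤ 2 := by
    rw [abs_le]
    constructor <;> linarith
  set v := vv c L j with hvdef
  set E : ℝ := Real.exp (L j * (2 * A + η / 2)) with hE
  have hEpos : 0 < E := Real.exp_pos _
  have hN : ∀ a : ℝ, |a| ≤ 1 → -E ≤ (nn (g j) (v / 2) (s - a) y).re := by
    intro a ha
    refine h1 (s - a) y ?_ hy1 hy2
    calc |s - a| ≤ |s| + |a| := abs_sub _ _
      _ ≤ R + 1 := by linarith
  have hcore := d4_core (h.re j) (h.ent j) hv hg (b := b) (σ := σ) hEpos.le hN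
    (h3 s y b σ (by linarith) hyab hb hσ) (h3 s y 0 0 (by linarith) hyab (by norm_num) (by norm_num))
  refine hcore.trans ?_
  have e1 : (2 * |b| + σ ^ 2) / v = L j * (c * σ ^ 2 + 2 * c * |b|) := by
    rw [hvdef]
    unfold vv
    have : L j ≠ 0 := by linarith
    field_simp
    ring
  rw [e1]
  set P := Real.exp (L j * (c * σ ^ 2 + 2 * c * |b|)) with hP
  have hP1 : 1 ≤ P := by
    refine Real.one_le_exp ?_
    have : 0 ≤ |b| := abs_nonneg b
    positivity
  have hE4 : 4 * E ≤ Real.exp (L j * (2 * A + η)) := by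
    have e2 : Real.exp (L j * (2 * A + η)) = E * Real.exp (L j * (η / 2)) := by
      rw [hE, ← Real.exp_add]
      congr 1
      ring
    rw [e2, mul_comm 4 E]
    refine mul_le_mul_of_nonneg_left ?_ hEpos.le
    have h5 : Real.log 4 ≤ L j * (η / 2) := by
      rw [div_le_iff₀ hη] at hLb
      linarith
    calc (4 : ℝ) = Real.exp (Real.log 4) := (Real.exp_log (by norm_num)).symm
      _ ≤ _ := Real.exp_le_exp.2 h5
  have hE1 : 1 ≤ E := Real.one_le_exp (by positivity)
  have hF : 0 ≤ ‖F (g j) v (s + I * y)‖ ^ 2 := by positivity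
  nlinarith [mul_le_mul_of_nonneg_left hE4 (zero_le_one.trans hP1), mul_le_mul_of_nonneg_left hE1 (zero_le_one.trans hP1)]

theorem st_d3 (hC2 : St_C2) (hC3 : St_C3) : St_D3 := by
  intro A C g L h τ hτ
  obtain ⟨c2, hc2⟩ := hC2 A C g L h τ hτ
  obtain ⟨c3, hc3⟩ := hC3 A C g L h
  have hA := h.A0
  refine ⟨max (max c2 c3) (max 32 ((1 / 4 + 2 * τ) / (2 * A))), fun c hc R => ?_⟩
  have hcc2 : c2 ≤ c := (le_max_left _ _).trans ((le_max_left _ _).trans hc)
  have hcc3 : c3 ≤ c := (le_max_right _ _).trans ((le_max_left _ _).trans hc)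
  have hc32 : 32 ≤ c := (le_max_left _ _).trans ((le_max_right _ _).trans hc)
  have hcA : (1 / 4 + 2 * τ) / (2 * A) ≤ c := (le_max_right _ _).trans ((le_max_right _ _).trans hc)
  have hc0 : 0 < c := by linarith
  have hcA' : (1 / 4 + 2 * τ) / c ≤ 2 * A := by
    rw [div_le_iff₀ (by positivity)] at hcA ⊢
    linarith
  have hbig : ∀ᶠ j in atTop, c * Real.log 4 / τ ≤ L j := h.lim.eventually_ge_atTop _
  filter_upwards [hc2 c hcc2 (R + 1), hc3 c hcc3 (|R| + 1), gr_ev h hc32, hbig]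
    with j h2 h3 hj hLb z hz hy1 hy2
  obtain ⟨hL, hv, hv', hg⟩ := hj
  have hR : R ≤ |R| := le_abs_self R
  set v := vv c L j with hvdef
  have hτc : 0 < (1 / 2 + τ) / c := by positivity
  have hyab : |z.im| ≤ 2 := by
    rw [abs_le]
    constructor <;> linarith
  set m : ℝ := Real.exp (L j * (z.im - (1 / 4 + τ) / c)) with hm
  have hN : ∀ a : ℝ, |a| ≤ 1 → m ≤ (nn (g j) (v / 2) (z.re - a) z.im).re := by
    intro a ha
    refine h2 (z.re - a) z.im ?_ hy1 hy2
    calc |z.re - a| ≤ |z.re| + |a| := abs_sub _ _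
      _ ≤ R + 1 := by linarith
  have hcore := d3_core (h.re j) (h.ent j) hv hg (s := z.re) (y := z.im) hv' (Real.exp_pos _).le hN
    (h3 z.re z.im 0 0 (by linarith) hyab (by norm_num) (by norm_num))
  have ez : (z.re : ℂ) + I * z.im = z := by
    rw [mul_comm]
    exact Complex.re_add_im z
  rw [ez] at hcore
  set X : ℝ := Real.exp (L j * (z.im / 2 - (1 / 8 + τ) / c)) with hX
  have hX0 : 0 < X := Real.exp_pos _
  have hX2 : X ^ 2 * 4 ≤ m := by
    have e1 : m = X ^ 2 * Real.exp (L j * (τ / c)) := by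
      rw [hm, hX, ← Real.exp_nat_mul, ← Real.exp_add]
      congr 1
      push_cast
      ring
    rw [e1]
    refine mul_le_mul_of_nonneg_left ?_ (by positivity)
    have h5 : Real.log 4 ≤ L j * (τ / c) := by
      rw [div_le_iff₀ hτ] at hLb
      rw [← mul_div_assoc, le_div_iff₀ hc0]
      linarith
    calc (4 : ℝ) = Real.exp (Real.log 4) := (Real.exp_log (by norm_num)).symm
      _ ≤ _ := Real.exp_le_exp.2 h5
  have hX1 : 1 ≤ X := by
    refine Real.one_le_exp (mul_nonneg (by linarith) ?_)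
    have e : (1 / 4 + 2 * τ) / c = 2 * ((1 / 8 + τ) / c) := by ring
    rw [e] at hcA'
    linarith
  have h6 : X ^ 2 ≤ ‖F (g j) v z‖ ^ 2 := by nlinarith
  exact (pow_le_pow_iff_left₀ hX0.le (norm_nonneg _) two_ne_zero).1 h6

end Pool.Agent.Helper82.LQ
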