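import Pool.Agent.Helper75.LQ.Lin

/-! The diagonal argument (package L4). -/

set_option autoImplicit false

open Complex MeasureTheory Filter Topology

namespace Pool.Agent.Helper82.LQ

open Pool.Agent.Helper75.LQ

theorem st_l4 (hfin : St_fin) : St_L4 := by
  intro A C B hA0 hA1 hC
  by_contra hcon
  push Not at hcon
  have hk : ∀ k : ℕ, ∃ (g : ℕ → ℂ → ℂ) (L : ℕ → ℝ), TSe A C B (1 / ((k : ℝ) + 1)) g L := fun k =>
    hcon (1 / ((k : ℝ) + 1)) (by positivity)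
  choose g L hT using hk
  have hev : ∀ k : ℕ, ∃ n : ℕ, (k : ℝ) ≤ L k n ∧
      (∀ z : ℂ, |z.re| ≤ k → |z.im| ≤ 2 * A → ‖g k n z‖ ≤ Real.exp (L k n * (A + 1 / ((k : ℝ) + 1)))) ∧
      (∀ z : ℂ, |z.re| ≤ k → 2 * A ≤ |z.im| → |z.im| ≤ 8 →
        ‖g k n z‖ ≤ Real.exp (L k n * (|z.im| / 2 + 1 / ((k : ℝ) + 1)))) ∧
      (∀ z : ℂ, |z.re| ≤ k → 2 * A + 1 / ((k : ℝ) + 1) ≤ z.im → z.im ≤ 8 →
        Real.exp (L k n * (z.im / 2 - 1 / ((k : ℝ) + 1))) ≤ ‖g k n z‖) ∧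
      (Real.exp (L k n * (A - 1 / ((k : ℝ) + 1))) ≤ ‖g k n 0‖) ∧
      (∀ z : ℂ, |z.im| ≤ 8 → ‖g k n z‖ ≤ Real.exp (C * L k n + C * |z.re|)) ∧
      (∀ i ∈ Finset.range (k + 1), ∀ z : ℂ, ‖g k n z‖ ≤
        Real.exp (L k n * (B (1 / ((i : ℝ) + 1)) + 1 / ((i : ℝ) + 1) * ‖z‖ ^ 2))) ∧
      (∀ s : ℝ, |s| ≤ k → ∀ m : ℕ, 1 / ((k : ℝ) + 1) * L k n ≤ m → 0 ≤ Lag (g k n) s m) := by
    intro k
    have h := hT k
    have hglob : ∀ᶠ n in atTop, ∀ i ∈ Finset.range (k + 1), ∀ z : ℂ, ‖g k n z‖ ≤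
        Real.exp (L k n * (B (1 / ((i : ℝ) + 1)) + 1 / ((i : ℝ) + 1) * ‖z‖ ^ 2)) := by
      rw [Filter.eventually_all_finset]
      intro i _
      exact h.glob (1 / ((i : ℝ) + 1)) (by positivity)
    exact ((h.lim.eventually_ge_atTop (k : ℝ)).and ((h.up0 k).and ((h.up1 k).and ((h.lo1 k).and
      (h.big.and (h.strip.and (hglob.and (h.pos k)))))))).exists
  choose n h1 h2 h3 h4 h5 h6 h7 h8 using hev
  have hLpos : ∀ k, 0 ≤ L k (n k) := fun k => (Nat.cast_nonneg k).trans (h1 k)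
  have hsmall : ∀ η : ℝ, 0 < η → ∀ᶠ k : ℕ in atTop, 1 / ((k : ℝ) + 1) ≤ η := by
    intro η hη
    have := (tendsto_one_div_add_atTop_nhds_zero_nat (𝕜 := ℝ)).eventually (gt_mem_nhds hη)
    exact this.mono fun k hk => hk.le
  have hbig : ∀ R : ℝ, ∀ᶠ k : ℕ in atTop, R ≤ (k : ℝ) := fun R =>
    tendsto_natCast_atTop_atTop.eventually_ge_atTop R
  refine hfin A C (fun k => g k (n k)) (fun k => L k (n k)) ?_
  refine ⟨hA0, hA1, hC, ?_, fun j => (hT j).ent _, fun j => (hT j).re _, ?_, ?_, ?_, ?_, ?_, ?_, ?_⟩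
  · exact tendsto_atTop_mono h1 tendsto_natCast_atTop_atTop
  · intro η hη R
    filter_upwards [hsmall η hη, hbig R] with k hk hR z hz1 hz2
    refine (h2 k z (hz1.trans hR) hz2).trans (Real.exp_le_exp.2 ?_)
    exact mul_le_mul_of_nonneg_left (by linarith) (hLpos k)
  · intro η hη R
    filter_upwards [hsmall η hη, hbig R] with k hk hR z hz1 hz2 hz3
    refine (h3 k z (hz1.trans hR) hz2 hz3).trans (Real.exp_le_exp.2 ?_)
    exact mul_le_mul_of_nonneg_left (by linarith) (hLpos k)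
  · intro η hη R
    filter_upwards [hsmall η hη, hbig R] with k hk hR z hz1 hz2 hz3
    refine le_trans (Real.exp_le_exp.2 ?_) (h4 k z (hz1.trans hR) (by linarith) hz3)
    exact mul_le_mul_of_nonneg_left (by linarith) (hLpos k)
  · intro η hη
    filter_upwards [hsmall η hη] with k hk
    refine le_trans (Real.exp_le_exp.2 ?_) (h5 k)
    exact mul_le_mul_of_nonneg_left (by linarith) (hLpos k)
  · exact Eventually.of_forall fun k => h6 k
  · intro δ hδ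
    obtain ⟨i, hi⟩ := (hsmall δ hδ).exists
    refine ⟨B (1 / ((i : ℝ) + 1)), ?_⟩
    filter_upwards [eventually_ge_atTop i] with k hk z
    refine (h7 k i (Finset.mem_range.2 (by omega)) z).trans (Real.exp_le_exp.2 ?_)
    refine mul_le_mul_of_nonneg_left ?_ (hLpos k)
    have : 0 ≤ ‖z‖ ^ 2 := by positivity
    nlinarith
  · intro κ hκ R
    filter_upwards [hsmall κ hκ, hbig R] with k hk hR s hs m hm
    refine h8 k s (hs.trans hR) m (le_trans ?_ hm)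
    exact mul_le_mul_of_nonneg_right hk (hLpos k)

end Pool.Agent.Helper82.LQ
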