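import Pool.Agent.Helper82.LQ.A

/-! Gaussian averages: package A3. -/

set_option autoImplicit false

open Complex MeasureTheory Filter Topology

namespace Pool.Agent.Helper82.LQ

open Pool.Agent.Helper75.LQ

theorem int_gauss2 {f : ℝ × ℝ → ℂ} (hf : Continuous f) {K c : ℝ} (hc : 0 < c)
    (hb : ∀ p : ℝ × ℝ, ‖f p‖ ≤ K * (Real.exp (-c * p.1 ^ 2) * Real.exp (-c * p.2 ^ 2))) :
    Integrable f (volume.prod volume) := by
  refine Integrable.mono' ?_ hf.aestronglyMeasurable (Eventually.of_forall hb)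
  refine Integrable.const_mul ?_ K
  exact (integrable_exp_neg_mul_sq hc).mul_prod (integrable_exp_neg_mul_sq hc)

/-- change of variables `(w, w') = (a - d, a + d)` -/
theorem cov {P Q : ℝ → ℂ} (hP : Continuous P) (hQ : Continuous Q) {K c : ℝ} (hK : 0 ≤ K) (hc : 0 < c)
    (hPb : ∀ w, ‖P w‖ ≤ K * Real.exp (-c * w ^ 2)) (hQb : ∀ w, ‖Q w‖ ≤ K * Real.exp (-c * w ^ 2)) :
    Integrable (fun p : ℝ × ℝ => P (p.1 - p.2) * Q (p.1 + p.2)) (volume.prod volume) ∧
      (∫ w, P w) * (∫ w, Q w) = 2 * ∫ a, ∫ d, P (a - d) * Q (a + d) := by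
  have hi1 : Integrable (fun p : ℝ × ℝ => P (p.1 - p.2) * Q (p.1 + p.2)) (volume.prod volume) := by
    refine int_gauss2 (K := K ^ 2) (c := c) (by fun_prop) hc fun p => ?_
    rw [norm_mul]
    refine (mul_le_mul (hPb _) (hQb _) (norm_nonneg _) (by positivity)).trans ?_
    have h1 : K * Real.exp (-c * (p.1 - p.2) ^ 2) * (K * Real.exp (-c * (p.1 + p.2) ^ 2)) =
        K ^ 2 * Real.exp (-c * (p.1 - p.2) ^ 2 + -c * (p.1 + p.2) ^ 2) := by
      rw [Real.exp_add]; ring
    rw [h1, ← Real.exp_add]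
    refine mul_le_mul_of_nonneg_left (Real.exp_le_exp.2 ?_) (by positivity)
    nlinarith [mul_nonneg hc.le (sq_nonneg p.1), mul_nonneg hc.le (sq_nonneg p.2)]
  have hi2 : Integrable (fun p : ℝ × ℝ => P p.1 * Q (p.1 + 2 * p.2)) (volume.prod volume) := by
    refine int_gauss2 (K := K ^ 2) (c := c / 2) (by fun_prop) (by positivity) fun p => ?_
    rw [norm_mul]
    refine (mul_le_mul (hPb _) (hQb _) (norm_nonneg _) (by positivity)).trans ?_
    have h1 : K * Real.exp (-c * p.1 ^ 2) * (K * Real.exp (-c * (p.1 + 2 * p.2) ^ 2)) =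
        K ^ 2 * Real.exp (-c * p.1 ^ 2 + -c * (p.1 + 2 * p.2) ^ 2) := by
      rw [Real.exp_add]; ring
    rw [h1, ← Real.exp_add]
    refine mul_le_mul_of_nonneg_left (Real.exp_le_exp.2 ?_) (by positivity)
    have h2 : 0 ≤ c * ((3 / 2) * p.1 ^ 2 + 4 * p.1 * p.2 + (7 / 2) * p.2 ^ 2) := by
      refine mul_nonneg hc.le ?_
      nlinarith [sq_nonneg (3 * p.1 + 4 * p.2), sq_nonneg p.2]
    nlinarith
  refine ⟨hi1, ?_⟩
  calc (∫ w, P w) * (∫ w, Q w) = ∫ w, P w * ∫ e, Q e := by rw [integral_mul_const]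
    _ = ∫ w, 2 * ∫ d, P w * Q (w + 2 * d) := by
        congr 1
        ext w
        have h1 : ∫ e, Q e = ∫ e, Q (w + e) := (integral_add_left_eq_self Q w).symm
        have h2 : ∫ d, Q (w + 2 * d) = (1 / 2 : ℝ) • ∫ e, Q (w + e) := by
          have := Measure.integral_comp_mul_left (fun e : ℝ => Q (w + e)) 2
          simpa [abs_of_pos] using this
        rw [integral_const_mul, h2, h1]
        rw [Complex.real_smul]
        push_cast
        ring
    _ = 2 * ∫ w, ∫ d, P w * Q (w + 2 * d) := integral_const_mul _ _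
    _ = 2 * ∫ d, ∫ w, P w * Q (w + 2 * d) := by
        congr 1
        exact integral_integral_swap (f := fun w d => P w * Q (w + 2 * d)) hi2
    _ = 2 * ∫ d, ∫ a, P (a - d) * Q (a + d) := by
        congr 2
        ext d
        rw [← integral_sub_right_eq_self (fun w : ℝ => P w * Q (w + 2 * d)) d]
        congr 1
        ext a
        congr 2
        ring
    _ = 2 * ∫ a, ∫ d, P (a - d) * Q (a + d) := by
        congr 1
        exact (integral_integral_swap (f := fun a d => P (a - d) * Q (a + d)) hi1).symm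

/-- the product of two Gaussians -/
theorem ga_mul {v : ℝ} (hv : 0 < v) (A d : ℂ) :
    2 * (ga v (A - d) * ga v (A + d)) = ga (v / 2) A * ga (v / 2) d := by
  unfold ga
  have hv' : (v : ℂ) ≠ 0 := by exact_mod_cast hv.ne'
  have h1 : 0 < Real.sqrt (2 * Real.pi * v) := Real.sqrt_pos.2 (by positivity)
  have h2 : 0 < Real.sqrt (2 * Real.pi * (v / 2)) := Real.sqrt_pos.2 (by positivity)
  have h3 : ((Real.sqrt (2 * Real.pi * v) : ℝ) : ℂ) ≠ 0 := by exact_mod_cast h1.ne'
  have h4 : ((Real.sqrt (2 * Real.pi * (v / 2)) : ℝ) : ℂ) ≠ 0 := by exact_mod_cast h2.ne'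
  have h5 : ((Real.sqrt (2 * Real.pi * v) : ℝ) : ℂ) * ((Real.sqrt (2 * Real.pi * v) : ℝ) : ℂ) =
      2 * (((Real.sqrt (2 * Real.pi * (v / 2)) : ℝ) : ℂ) * ((Real.sqrt (2 * Real.pi * (v / 2)) : ℝ) : ℂ)) := by
    have h6 : Real.sqrt (2 * Real.pi * v) * Real.sqrt (2 * Real.pi * v) =
        2 * (Real.sqrt (2 * Real.pi * (v / 2)) * Real.sqrt (2 * Real.pi * (v / 2))) := by
      rw [Real.mul_self_sqrt (by positivity), Real.mul_self_sqrt (by positivity)]
      ring
    exact_mod_cast h6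
  rw [div_mul_div_comm, div_mul_div_comm, ← Complex.exp_add, ← Complex.exp_add, h5, mul_div_assoc']
  rw [mul_div_mul_left _ _ (two_ne_zero)]
  congr 2
  push_cast
  field_simp
  ring

theorem st_a3 : St_A3 := by
  intro g v hd hv hg s b y σ
  obtain ⟨M, a, hM, ha, hav, hgb⟩ := id hg
  -- the two factors
  set P : ℝ → ℂ := fun w => g ((s + I * y) - w) * ga v (w + (b + I * σ)) with hPdef
  set Q : ℝ → ℂ := fun w => g ((s - I * y) - w) * ga v (w + (b + I * σ)) with hQdef
  have hcont : ∀ z ζ : ℂ, Continuous (fun w : ℝ => g (z - w) * ga v (w + ζ)) := fun z ζ =>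
    (hd.continuous.comp (continuous_const.sub Complex.continuous_ofReal)).mul
      ((continuous_ga v).comp (Complex.continuous_ofReal.add continuous_const))
  have hP : Continuous P := hcont _ _
  have hQ : Continuous Q := hcont _ _
  set K1 : ℝ := M * Real.exp (2 * a * ‖((s : ℂ) + I * y)‖ ^ 2) * Real.exp (‖((b : ℂ) + I * σ)‖ ^ 2 / (2 * v)) /
      Real.sqrt (2 * Real.pi * v) with hK1
  set K2 : ℝ := M * Real.exp (2 * a * ‖((s : ℂ) - I * y)‖ ^ 2) * Real.exp (‖((b : ℂ) + I * σ)‖ ^ 2 / (2 * v)) /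
      Real.sqrt (2 * Real.pi * v) with hK2
  have hK1n : 0 ≤ K1 := by positivity
  have hK2n : 0 ≤ K2 := by positivity
  have hPb : ∀ w, ‖P w‖ ≤ (K1 + K2) * Real.exp (-(1 / (8 * v)) * w ^ 2) := fun w =>
    (bnd hv hM ha hav hgb _ _ w).trans (mul_le_mul_of_nonneg_right (by linarith) (Real.exp_pos _).le)
  have hQb : ∀ w, ‖Q w‖ ≤ (K1 + K2) * Real.exp (-(1 / (8 * v)) * w ^ 2) := fun w =>
    (bnd hv hM ha hav hgb _ _ w).trans (mul_le_mul_of_nonneg_right (by linarith) (Real.exp_pos _).le)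
  obtain ⟨hi, he⟩ := cov hP hQ (by positivity) (by positivity) hPb hQb
  have hpt : ∀ x d : ℝ, 2 * (P (x - d) * Q (x + d)) =
      S g ((s - x : ℝ) : ℂ) (y - I * d) * ga (v / 2) d * ga (v / 2) (x + b + I * σ) := by
    intro x d
    have h1 := ga_mul hv ((x : ℂ) + b + I * σ) (d : ℂ)
    have e1 : ((x - d : ℝ) : ℂ) + ((b : ℂ) + I * σ) = (x : ℂ) + b + I * σ - d := by push_cast; ring
    have e2 : ((x + d : ℝ) : ℂ) + ((b : ℂ) + I * σ) = (x : ℂ) + b + I * σ + d := by push_cast; ring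
    have e3 : ((s : ℂ) + I * y) - ((x - d : ℝ) : ℂ) = ((s - x : ℝ) : ℂ) + I * ((y : ℂ) - I * d) := by
      push_cast
      linear_combination (d : ℂ) * Complex.I_sq
    have e4 : ((s : ℂ) - I * y) - ((x + d : ℝ) : ℂ) = ((s - x : ℝ) : ℂ) - I * ((y : ℂ) - I * d) := by
      push_cast
      linear_combination (-(d : ℂ)) * Complex.I_sq
    simp only [hPdef, hQdef, S]
    rw [e1, e2, e3, e4]
    linear_combination (g (((s - x : ℝ) : ℂ) + I * ((y : ℂ) - I * d)) *
      g (((s - x : ℝ) : ℂ) - I * ((y : ℂ) - I * d))) * h1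
  have hin : ∀ x : ℝ, 2 * ∫ d, P (x - d) * Q (x + d) =
      nn g (v / 2) (s - x) y * ga (v / 2) (x + b + I * σ) := by
    intro x
    unfold nn
    rw [← integral_const_mul, ← integral_mul_const]
    congr 1
    ext d
    exact hpt x d
  constructor
  · have h := (hi.integral_prod_left).const_mul 2
    refine h.congr (Eventually.of_forall fun x => ?_)
    exact hin x
  · have hF1 : F g v (s + b + I * (σ + y)) = ∫ w, P w := by
      have h := shift hd hv hg ((s : ℂ) + I * y) (b + I * σ)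
      rw [← h]
      congr 1
      ring
    have hF2 : F g v (s + b + I * (σ - y)) = ∫ w, Q w := by
      have h := shift hd hv hg ((s : ℂ) - I * y) (b + I * σ)
      rw [← h]
      congr 1
      ring
    rw [hF1, hF2, he, ← integral_const_mul]
    congr 1
    ext x
    exact hin x

end Pool.Agent.Helper82.LQ
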